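import Pool.Agent.MWI.StmtsE

/-!
# PJS: projections of the starred words
-/

namespace Pool.Agent.MWI.H67

open Pool.Agent.Helper14_MV Pool.Agent.Helper2_MV Pool.Agent.MWF Pool.Agent.MWI

theorem pj2 (j k k' i : ℕ) (hk' : k' < 7) :
    pj j k (3 * (7 * i + k') + 2) = if k' = k then [3 * i + 2] else [] := by
  have h1 : (3 * (7 * i + k') + 2) % 3 = 2 := by omega
  have h2 : (3 * (7 * i + k') + 2) / 3 % 7 = k' := by omega
  have h3 : (3 * (7 * i + k') + 2) / 3 / 7 = i := by omega
  unfold pj
  rw [h1, h2, h3, if_neg (by decide)]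

theorem pj1 (j k k' i : ℕ) (hk' : k' < 7) :
    pj j k (3 * (7 * i + k') + 1) = if k' = k then [3 * i + 1] else [] := by
  have h1 : (3 * (7 * i + k') + 1) % 3 = 1 := by omega
  have h2 : (3 * (7 * i + k') + 1) / 3 % 7 = k' := by omega
  have h3 : (3 * (7 * i + k') + 1) / 3 / 7 = i := by omega
  unfold pj
  rw [h1, h2, h3, if_neg (by decide)]

/-- one copy of left places -/
theorem plc (j k k' : ℕ) (hk' : k' < 7) (P : List ℕ) :
    (pl (P.map (fun i => 7 * i + k'))).flatMap (pj j k) = if k' = k then pl P else [] := by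
  induction P with
  | nil => simp [pl]
  | cons i P ih =>
    have e : pl ((i :: P).map (fun i => 7 * i + k')) = (3 * (7 * i + k') + 2) ::
        (3 * (7 * i + k') + 1) :: pl (P.map (fun i => 7 * i + k')) := rfl
    have e' : pl (i :: P) = (3 * i + 2) :: (3 * i + 1) :: pl P := rfl
    rw [e, e', List.flatMap_cons, List.flatMap_cons, ih, pj1 j k k' i hk', pj2 j k k' i hk']
    split_ifs <;> rfl

/-- one copy of right places -/
theorem prc (j k k' : ℕ) (hk' : k' < 7) (P : List ℕ) :
    (pr (P.map (fun i => 7 * i + k'))).flatMap (pj j k) = if k' = k then pr P else [] := by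
  induction P with
  | nil => simp [pr]
  | cons i P ih =>
    have e : pr ((i :: P).map (fun i => 7 * i + k')) = (3 * (7 * i + k') + 1) ::
        (3 * (7 * i + k') + 2) :: pr (P.map (fun i => 7 * i + k')) := rfl
    have e' : pr (i :: P) = (3 * i + 1) :: (3 * i + 2) :: pr P := rfl
    rw [e, e', List.flatMap_cons, List.flatMap_cons, ih, pj1 j k k' i hk', pj2 j k k' i hk']
    split_ifs <;> rfl

/-- one copy of the chain -/
theorem zzc (j k k' : ℕ) (hk' : k' < 7) (P : List ℕ) :
    (zz (P.map (fun i => 7 * i + k'))).flatMap (pj j k) = if k' = k then zz P else [] := by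
  induction P with
  | nil => simp [zz]
  | cons i P ih =>
    have e : zz ((i :: P).map (fun i => 7 * i + k')) = (3 * (7 * i + k') + 2) ::
        zz (P.map (fun i => 7 * i + k')) := rfl
    have e' : zz (i :: P) = (3 * i + 2) :: zz P := rfl
    rw [e, e', List.flatMap_cons, ih, pj2 j k k' i hk']
    split_ifs <;> rfl

theorem pl_app (A B : List ℕ) : pl (A ++ B) = pl A ++ pl B := by simp [pl]

theorem pr_app (A B : List ℕ) : pr (A ++ B) = pr A ++ pr B := by simp [pr]

theorem stL_eq (P : List ℕ) : stL P = P.map (fun i => 7 * i + 0) ++ (P.map (fun i => 7 * i + 1) ++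
    (P.map (fun i => 7 * i + 2) ++ (P.map (fun i => 7 * i + 3) ++ (P.map (fun i => 7 * i + 4) ++
    (P.map (fun i => 7 * i + 5) ++ (P.map (fun i => 7 * i + 6) ++ [])))))) := rfl

theorem stQ_eq (P : List ℕ) : stQ P = P.map (fun i => 7 * i + 0) ++ (P.map (fun i => 7 * i + 1) ++
    (P.map (fun i => 7 * i + 2) ++ (P.map (fun i => 7 * i + 4) ++
    (P.map (fun i => 7 * i + 5) ++ (P.map (fun i => 7 * i + 6) ++ []))))) := rfl

theorem idx_eq (m : ℕ) : idx m = ci m 0 ++ (ci m 1 ++ (ci m 2 ++ (ci m 3 ++ (ci m 4 ++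
    (ci m 5 ++ (ci m 6 ++ [])))))) := rfl

theorem p1 (P : List ℕ) (j k : ℕ) (hk : k < 7) : (pl (stL P)).flatMap (pj j k) = pl P := by
  rw [stL_eq]
  simp only [pl_app, List.flatMap_append, plc j k 0 (by omega), plc j k 1 (by omega),
    plc j k 2 (by omega), plc j k 3 (by omega), plc j k 4 (by omega), plc j k 5 (by omega),
    plc j k 6 (by omega)]
  have e : (pl []).flatMap (pj j k) = [] := rfl
  rw [e]
  interval_cases k <;> simp

theorem p2 (P : List ℕ) (j k : ℕ) (hk : k < 7) :
    (pr (stQ P)).flatMap (pj j k) = if k = 3 then [] else pr P := by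
  rw [stQ_eq]
  simp only [pr_app, List.flatMap_append, prc j k 0 (by omega), prc j k 1 (by omega),
    prc j k 2 (by omega), prc j k 4 (by omega), prc j k 5 (by omega),
    prc j k 6 (by omega)]
  have e : (pr []).flatMap (pj j k) = [] := rfl
  rw [e]
  interval_cases k <;> simp

theorem p3 (P : List ℕ) (j k : ℕ) :
    (pr (st3 P)).flatMap (pj j k) = if k = 3 then pr P else [] := by
  unfold st3
  rw [prc j k 3 (by omega)]
  simp only [eq_comm]

theorem p5 (P Q : List ℕ) (m : ℕ) (h : (P ++ Q).Perm (List.range m)) :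
    (stL P ++ (stQ Q ++ st3 Q)).Perm (idx m) := by
  have hc : ∀ k, (ci m k : Multiset ℕ) = (P.map (fun i => 7 * i + k) : Multiset ℕ) +
      (Q.map (fun i => 7 * i + k) : Multiset ℕ) := by
    intro k
    rw [Multiset.coe_add, Multiset.coe_eq_coe, ← List.map_append]
    exact (h.map _).symm
  rw [← Multiset.coe_eq_coe, stL_eq, stQ_eq, idx_eq]
  unfold st3
  simp only [← Multiset.coe_add, hc]
  abel

theorem p7 (m E : ℕ) : E ∈ idx m ↔ E < 7 * m := by
  unfold idx ci
  rw [List.mem_flatMap]
  constructor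
  · rintro ⟨k, hk, h⟩
    rw [List.mem_range] at hk
    rw [List.mem_map] at h
    obtain ⟨i, hi, rfl⟩ := h
    rw [List.mem_range] at hi
    omega
  · intro h
    refine ⟨E % 7, List.mem_range.mpr (by omega), List.mem_map.mpr ⟨E / 7,
      List.mem_range.mpr (by omega), by omega⟩⟩

theorem p6 (m : ℕ) : (idx m).Nodup := by
  unfold idx
  rw [List.nodup_flatMap]
  constructor
  · intro k _
    unfold ci
    exact List.Nodup.map (fun a b (h : 7 * a + k = 7 * b + k) => by omega) List.nodup_range
  · have h7 : (List.range 7).Pairwise (fun a b => a ≠ b) := List.nodup_range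
    refine List.Pairwise.imp_of_mem ?_ h7
    intro a b ha hb hab
    rw [List.mem_range] at ha hb
    show List.Disjoint (ci m a) (ci m b)
    intro x hx hy
    unfold ci at hx hy
    rw [List.mem_map] at hx hy
    obtain ⟨i, _, h1⟩ := hx
    obtain ⟨i', _, h2⟩ := hy
    omega

theorem pjs : PjsStmt := by
  intro P Q m j k hk
  refine ⟨p1 P j k hk, p2 Q j k hk, p3 Q j k, ?_, p5 P Q m, p6 m, p7 m⟩
  intro k' hk'
  unfold cc ci
  exact zzc j k k' hk' (List.range m)

end Pool.Agent.MWI.H67
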